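import Mathlib
import Pool.Agent.Q183.FractalSpace

/-!
# A metric fractal that is not equi-Hölder equivalent to any fractal in `ℓ₂`
-/

open Set
open scoped NNReal

namespace Pool.Agent.Results.MP_601622_gt.NotHolder

/-- `f` is contracting: its Lipschitz constant is less than `1` -/
def IsContracting {X : Type} [MetricSpace X] (f : X → X) : Prop :=
  ∃ L : ℝ≥0, L < 1 ∧ LipschitzWith L f

/-- `(K, F)` is a metric fractal: `K` is a (nonempty) compact metric space and `F` is a finite
family of contracting self-maps of `K` whose images cover `K` -/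
def IsMetricFractal (K : Type) [MetricSpace K] (F : Set (K → K)) : Prop :=
  Nonempty K ∧ CompactSpace K ∧ F.Finite ∧ (∀ f ∈ F, IsContracting f) ∧ (⋃ f ∈ F, range f) = univ

/-- `(K', F')` is a fractal in `X`: `K'` is the attractor of a finite family `G` of contracting
self-maps of `X`, and `F'` consists of the restrictions of the members of `G` to `K'` -/
def IsFractalIn (X : Type) [MetricSpace X] (K' : Set X) (F' : Set (K' → K')) : Prop :=
  ∃ G : Set (X → X), G.Finite ∧ (∀ g ∈ G, IsContracting g) ∧ K'.Nonempty ∧ IsCompact K' ∧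
    K' = ⋃ g ∈ G, g '' K' ∧ F' = {f | ∃ g ∈ G, ∀ x : K', (f x : X) = g x}

/-- the two-sided Hölder estimate: `c d(x,y)^α ≤ d(h x, h y) ≤ C d(x,y)^α` for some constants
`c, C, α > 0` -/
def IsEquiHolder {X Y : Type} [MetricSpace X] [MetricSpace Y] (h : X → Y) : Prop :=
  ∃ c C α : ℝ, 0 < c ∧ 0 < C ∧ 0 < α ∧
    ∀ x y, c * dist x y ^ α ≤ dist (h x) (h y) ∧ dist (h x) (h y) ≤ C * dist x y ^ α

/-- `(X, F)` and `(Y, F')` are equi-Hölder equivalent -/
def EquiHolderEquivalent {X Y : Type} [MetricSpace X] [MetricSpace Y] (F : Set (X → X))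
    (F' : Set (Y → Y)) : Prop :=
  ∃ h : X ≃ₜ Y, IsEquiHolder h ∧ F' = {g | ∃ f ∈ F, g = h ∘ f ∘ h.symm}

/-- the Hilbert space `ℓ₂` -/
abbrev ell2 : Type := lp (fun _ : ℕ => ℝ) 2

/-- There is a metric fractal `(K, F)`, `F` consisting of at most three maps, which is not
equi-Hölder equivalent to any fractal in `ℓ₂`. In fact there is no map `h` at all from `K` to `ℓ₂`
which satisfies `c d(x,y)^α ≤ ‖h x - h y‖ ≤ C d(x,y)^α` for some constants `c, C, α > 0`. -/
theorem result : ∃ (K : Type) (_ : MetricSpace K) (F : Set (K → K)),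
    IsMetricFractal K F ∧ F.ncard ≤ 3 ∧
    (∀ (K' : Set ell2) (F' : Set (K' → K')), IsFractalIn ell2 K' F' →
      ¬ EquiHolderEquivalent F F') ∧
    ∀ h : K → ell2, ¬ IsEquiHolder h := by
  have key : ∀ h : Q183.FractalSpace.K → ell2, ¬ IsEquiHolder h := by
    rintro h ⟨c, C, α, hc, _, hα, h1⟩
    exact Q183.FractalSpace.no_holder h hc hα (fun x y => (h1 x y).1) (fun x y => (h1 x y).2)
  have hlt : (1 / 2 : ℝ≥0) < 1 := by
    rw [← NNReal.coe_lt_coe]
    push_cast
    norm_num
  refine ⟨Q183.FractalSpace.K, inferInstance,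
    {Q183.FractalSpace.f0, Q183.FractalSpace.f1 0, Q183.FractalSpace.f1 1},
    ⟨⟨Q183.FractalSpace.o⟩, inferInstance, Set.toFinite _, ?_, ?_⟩, ?_, ?_, key⟩
  · have h1 : ∀ b, IsContracting (Q183.FractalSpace.f1 b) := by
      intro b
      refine ⟨1 / 2, hlt, LipschitzWith.of_dist_le_mul fun x y => ?_⟩
      push_cast
      exact Q183.FractalSpace.f1_contr b x y
    rintro f (rfl | rfl | rfl)
    · refine ⟨1 / 2, hlt, LipschitzWith.of_dist_le_mul fun x y => ?_⟩
      have : dist (Q183.FractalSpace.f0 x) (Q183.FractalSpace.f0 y) = 0 := dist_self _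
      rw [this]
      positivity
    · exact h1 0
    · exact h1 1
  · rw [eq_univ_iff_forall]
    intro a
    rw [mem_iUnion₂]
    rcases Q183.FractalSpace.cover a with h | h | h
    · exact ⟨_, Or.inl rfl, ⟨a, h.symm⟩⟩
    · exact ⟨_, Or.inr (Or.inl rfl), h⟩
    · exact ⟨_, Or.inr (Or.inr rfl), h⟩
  · have h1 := Set.ncard_insert_le Q183.FractalSpace.f0
      {Q183.FractalSpace.f1 0, Q183.FractalSpace.f1 1}
    have h2 := Set.ncard_insert_le (Q183.FractalSpace.f1 0) {Q183.FractalSpace.f1 1}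
    rw [Set.ncard_singleton] at h2
    omega
  · rintro K' F' _ ⟨h, ⟨c, C, α, hc, hC, hα, h1⟩, _⟩
    exact key (fun x => (h x : ell2)) ⟨c, C, α, hc, hC, hα, fun x y => h1 x y⟩

end Pool.Agent.Results.MP_601622_gt.NotHolder
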